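import Pool.Agent.Helper68.SG2.GoalsT
import Pool.Agent.Helper29.BL.PS

/-!
# Project SG, stage 2 (MP_a41896_nt), packet LOCT: the local estimate

Adapted from `Pool/Agent/Helper32/SGM/LOCEG.lean` (helper32).
-/

set_option autoImplicit false

open MvPolynomial

namespace Pool.Agent.Helper56.SG2

open WeierstrassCurve Height
open Pool.Agent.Helper29.BL Pool.Agent.Helper92.Ru Pool.Agent.Helper42.SG
open Pool.Agent.Helper68.SG2

theorem prod_two (n : ℕ) (f : ℕ → ℝ) :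
    ∏ h ∈ Finset.range (2 * n), f h = ∏ j ∈ Finset.range n, (f (2 * j) * f (2 * j + 1)) := by
  induction n with
  | zero => simp
  | succ n ih =>
    rw [show 2 * (n + 1) = 2 * n + 1 + 1 by ring, Finset.prod_range_succ, Finset.prod_range_succ,
      Finset.prod_range_succ, ih]
    ring

theorem keyT_le (T : ℕ → Bool) (n M δ k0 : ℕ) (e : ℕ → ℕ) (a G L : ℕ → ℝ) (K1 c W0 : ℝ)
    (Y z : ℕ → ℝ) (hK1 : 0 ≤ K1)
    (h1 : ∀ h < 2 * n, 0 ≤ cost T n M e a L h ∧ cost T n M e a L h ≤ K1 ^ (4 ^ e (h / 2)) * Y h)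
    (h2 : ∀ h < 2 * n, 1 ≤ z h ∧ z h ≤ gn T a G h)
    (h3 : 0 ≤ a (2 * n) * a (2 * n + 1)) (h4 : a (2 * n) * a (2 * n + 1) ≤ c * W0) :
    keyT T n M δ k0 e a G L ≤ (K1 ^ 2) ^ (Helper42.SG.sq n e) *
      (∏ h ∈ Finset.range (2 * n), Y h) /
      (∏ j ∈ Finset.range n, (min (z (2 * j)) (z (2 * j + 1))) ^ (k0 * 4 ^ e j)) *
      (c * W0) ^ δ := by
  have hz : ∀ j < n, 1 ≤ min (z (2 * j)) (z (2 * j + 1)) := fun j hj =>
    le_min (h2 _ (by omega)).1 (h2 _ (by omega)).1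
  have hzg : ∀ j < n, min (z (2 * j)) (z (2 * j + 1)) ≤
      min (gn T a G (2 * j)) (gn T a G (2 * j + 1)) := fun j hj =>
    min_le_min (h2 _ (by omega)).2 (h2 _ (by omega)).2
  unfold keyT
  have e2 : (K1 ^ 2) ^ (Helper42.SG.sq n e) * (∏ h ∈ Finset.range (2 * n), Y h) /
      (∏ j ∈ Finset.range n, (min (z (2 * j)) (z (2 * j + 1))) ^ (k0 * 4 ^ e j)) =
      ∏ j ∈ Finset.range n, ((K1 ^ 2) ^ (4 ^ e j) * (Y (2 * j) * Y (2 * j + 1)) /
        (min (z (2 * j)) (z (2 * j + 1))) ^ (k0 * 4 ^ e j)) := by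
    have e3 : ∏ x ∈ Finset.range n, ((K1 ^ 2) ^ 4 ^ e x * (Y (2 * x) * Y (2 * x + 1))) =
        (∏ x ∈ Finset.range n, (K1 ^ 2) ^ 4 ^ e x) *
          ∏ x ∈ Finset.range n, (Y (2 * x) * Y (2 * x + 1)) := Finset.prod_mul_distrib
    rw [prod_two, Finset.prod_div_distrib, e3, Finset.prod_pow_eq_pow_sum]
    rfl
  rw [e2]
  have hA : ∏ j ∈ Finset.range n, (cost T n M e a L (2 * j) * cost T n M e a L (2 * j + 1) /
      (min (gn T a G (2 * j)) (gn T a G (2 * j + 1))) ^ (k0 * 4 ^ e j)) ≤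
      ∏ j ∈ Finset.range n, ((K1 ^ 2) ^ (4 ^ e j) * (Y (2 * j) * Y (2 * j + 1)) /
        (min (z (2 * j)) (z (2 * j + 1))) ^ (k0 * 4 ^ e j)) := by
    apply Finset.prod_le_prod
    · intro j hj
      have hj' := Finset.mem_range.1 hj
      have := (h1 (2 * j) (by omega)).1
      have := (h1 (2 * j + 1) (by omega)).1
      have h5 := le_trans (hz j hj') (hzg j hj')
      have : 0 ≤ min (gn T a G (2 * j)) (gn T a G (2 * j + 1)) := by linarith
      positivity
    · intro j hj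
      have hj' := Finset.mem_range.1 hj
      obtain ⟨c1, c2⟩ := h1 (2 * j) (by omega)
      obtain ⟨d1, d2⟩ := h1 (2 * j + 1) (by omega)
      rw [show 2 * j / 2 = j by omega] at c2
      rw [show (2 * j + 1) / 2 = j by omega] at d2
      have h5 := hz j hj'
      have h6 := hzg j hj'
      apply div_le_div₀
      · have : 0 ≤ cost T n M e a L (2 * j) * cost T n M e a L (2 * j + 1) := mul_nonneg c1 d1
        refine le_trans this ?_
        calc _ ≤ (K1 ^ (4 ^ e j) * Y (2 * j)) * (K1 ^ (4 ^ e j) * Y (2 * j + 1)) :=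
              mul_le_mul c2 d2 d1 (le_trans c1 c2)
          _ = _ := by ring
      · calc _ ≤ (K1 ^ (4 ^ e j) * Y (2 * j)) * (K1 ^ (4 ^ e j) * Y (2 * j + 1)) :=
              mul_le_mul c2 d2 d1 (le_trans c1 c2)
          _ = _ := by ring
      · have : 0 < min (z (2 * j)) (z (2 * j + 1)) := by linarith
        positivity
      · have : 0 ≤ min (z (2 * j)) (z (2 * j + 1)) := by linarith
        gcongr
  refine mul_le_mul hA (pow_le_pow_left₀ h3 h4 δ) (pow_nonneg h3 δ) ?_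
  refine Finset.prod_nonneg fun j hj => ?_
  have hj' := Finset.mem_range.1 hj
  obtain ⟨c1, c2⟩ := h1 (2 * j) (by omega)
  obtain ⟨d1, d2⟩ := h1 (2 * j + 1) (by omega)
  rw [show 2 * j / 2 = j by omega] at c2
  rw [show (2 * j + 1) / 2 = j by omega] at d2
  have h5 := hz j hj'
  refine div_nonneg ?_ ?_
  · have : 0 ≤ (K1 ^ (4 ^ e j) * Y (2 * j)) * (K1 ^ (4 ^ e j) * Y (2 * j + 1)) :=
      mul_nonneg (le_trans c1 c2) (le_trans d1 d2)
    calc (0 : ℝ) ≤ _ := this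
      _ = _ := by ring
  · have : 0 ≤ min (z (2 * j)) (z (2 * j + 1)) := by linarith
    positivity

section plc

variable {K : Type} [Field K] [AdmissibleAbsValues K]

theorem plc_pos {B : AbsoluteValue K ℝ → ℝ} (h : PlC B) (v : AbsoluteValue K ℝ) : 0 < B v :=
  lt_of_lt_of_le one_pos (h.one_le v)

theorem plc_one : PlC (K := K) fun _ => 1 :=
  ⟨fun _ => le_rfl, by simpa using FS.zero⟩

theorem plc_mul {B B' : AbsoluteValue K ℝ → ℝ} (h : PlC B) (h' : PlC B') :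
    PlC fun v => B v * B' v := by
  refine ⟨fun v => one_le_mul_of_one_le_of_one_le (h.one_le v) (h'.one_le v), ?_⟩
  refine (h.fin.add h'.fin).mono fun v _ hv => ?_
  rw [Real.log_mul (plc_pos h v).ne' (plc_pos h' v).ne']
  exact hv

theorem plc_pow {B : AbsoluteValue K ℝ → ℝ} (h : PlC B) (k : ℕ) : PlC fun v => B v ^ k := by
  induction k with
  | zero => simpa using plc_one
  | succ k ih =>
    simp only [pow_succ]
    exact plc_mul ih h

theorem plc_cst {c : ℝ} (hc : 1 ≤ c) : PlC (K := K) fun v => cst v c :=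
  ⟨fun v => one_le_cst v hc, FS_log_cst c⟩

end plc

/-- the cost of a variable of a curve -/
theorem cost_curve (M q : ℕ) (hq : 1 ≤ q) (b B x x0 lo w : ℝ) (hb : 1 ≤ b) (_hB : 1 ≤ B)
    (hx : 1 ≤ x) (hx0 : 1 ≤ x0) (_hlo : 0 ≤ lo) (_hw : 1 ≤ w)
    (h : x ^ (2 * q) * x0 ^ 2 ≤ B ^ q * lo * w) :
    (b * x) ^ (2 * q * M + q) * (b * x0) ^ (2 * M) ≤
      (b ^ (4 * M + 1) * B ^ M) ^ q * ((lo ^ M * x ^ q) * w ^ M) := by
  have e1 : (b * x) ^ (2 * q * M + q) * (b * x0) ^ (2 * M) =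
      b ^ (2 * q * M + q + 2 * M) * (x ^ (2 * q) * x0 ^ 2) ^ M * x ^ q := by
    ring
  have e2 : (b ^ (4 * M + 1) * B ^ M) ^ q * ((lo ^ M * x ^ q) * w ^ M) =
      b ^ ((4 * M + 1) * q) * (B ^ q * lo * w) ^ M * x ^ q := by
    ring
  have h3 : b ^ (2 * q * M + q + 2 * M) ≤ b ^ ((4 * M + 1) * q) := by
    apply pow_le_pow_right₀ hb
    nlinarith [Nat.mul_le_mul (le_refl M) hq]
  rw [e1, e2]
  gcongr

/-- **LOCT** -/
theorem t_LOCT (hF : FRPS) (hBX : BNDX) : LOCT := by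
  intro K _ _ T W n M δ k0 B B' B'' hn hM1 hB hB' hB''
  refine ⟨fun v => B v * (B' v ^ 2 * cst v 2) ^ (2 * (M + 3)) *
    ((B' v) ^ (4 * M + 1) * B'' v ^ M) ^ 2 * (B' v) ^ (2 * δ), ?_, ?_⟩
  · exact plc_mul (plc_mul (plc_mul hB (plc_pow (plc_mul (plc_pow hB' _)
      (plc_cst (by norm_num))) _)) (plc_pow (plc_mul (plc_pow hB' _) (plc_pow hB'' _)) _))
      (plc_pow hB' _)
  intro F e c ξ ψ ω σ _ X Ψ α dl v r s hKEY hOn hPt hs hc hr hFX hN h33 hδ
  have hq : ∀ j, 1 ≤ 4 ^ e j := fun j => Nat.one_le_pow _ _ (by norm_num)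
  have hM : ∀ h, 1 ≤ Mv v (ξ h) := fun h => one_le_Mv v _
  have hb := hB'.one_le v
  have hb0 : 0 < B' v := plc_pos hB' v
  have hB''1 := hB''.one_le v
  have hcst : 1 ≤ cst v (2 : ℝ) := one_le_cst v (by norm_num)
  obtain ⟨a, G, L, lam, hBnd, haE, haR, hlam, hG, hcG⟩ :=
    hBX K T W n e ξ ψ ω σ X Ψ v r (B' v) hb hOn hPt hr hN
  obtain ⟨hfr, hcauchy⟩ := hF K v σ r hr
  have hk := hKEY v (MvPowerSeries σ K) _ hfr X Ψ a G L s _ lam hOn hBnd hc hFX
  have hC := hcauchy _ _ α hk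
  rw [hδ, map_mul, map_prod] at hC
  -- the factors between the laws
  have hom : ∀ h < 2 * n, 0 < v (omT T M e lam ω ψ h) := by
    intro h hh
    unfold omT
    by_cases hl : lam h = true
    · rw [if_pos hl]
      by_cases ht : T (h % 2) = true
      · rw [if_pos ht, map_pow]
        have h1 := (hPt h (by omega)).1 ht
        have h2 : ψ h ≠ 0 := by rw [h1.2.2]; exact inv_ne_zero h1.1
        exact pow_pos (v.pos h2) _
      · have ht' : T (h % 2) = false := by simpa using ht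
        rw [if_neg ht, map_pow]
        rw [hlam h hh ht'] at hl
        have : 1 < v (ω h) := by simpa using hl
        positivity
    · rw [if_neg hl, map_one]
      exact one_pos
  obtain ⟨Y, hY⟩ : ∃ Y : ℕ → ℝ, Y = fun h => (max (v (loT T W n e ξ ψ h).1)
      (v (loT T W n e ξ ψ h).2)) ^ M * Mv v (ξ h) ^ (4 ^ e (h / 2)) := ⟨_, rfl⟩
  have hY0 : ∀ h, 0 ≤ Y h := by
    intro h
    rw [hY]
    have h1 : 0 ≤ max (v (loT T W n e ξ ψ h).1) (v (loT T W n e ξ ψ h).2) :=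
      le_max_of_le_left (v.nonneg _)
    have := hM h
    positivity
  have hcost : ∀ h < 2 * n, 0 ≤ cost T n M e a L h ∧ cost T n M e a L h ≤
      ((B' v) ^ (4 * M + 1) * B'' v ^ M) ^ (4 ^ e (h / 2)) *
        (Y h * v (omT T M e lam ω ψ h)) := by
    intro h hh
    have ha1 := hBnd.one_a h (by omega)
    by_cases ht : T (h % 2) = true
    · have hL : 0 ≤ L h := by
        by_cases hl : lam h = true
        · linarith [(hBnd.gmT h hh ht hl).2.2]
        · have hl' : lam h = false := by simpa using hl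
          have h1 := (hBnd.gmF h hh ht hl').2.2
          have h2 : 0 ≤ a h ^ (4 ^ e (h / 2)) := by positivity
          linarith
      unfold cost
      rw [if_pos ht]
      refine ⟨by positivity, (hcG h hh ht M).trans ?_⟩
      have e1 : (max (v (ξ (2 * n + h % 2))) (v (ξ h ^ (4 ^ e (h / 2)))) ^ M *
          Mv v (ξ h) ^ (4 ^ e (h / 2))) = Y h := by
        rw [hY]
        simp only [loT]
        rw [if_pos ht]
      have e2 : (if lam h = true then v (ψ h) ^ (4 ^ e (h / 2) * (M + 1) - 1) else 1) =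
          v (omT T M e lam ω ψ h) := by
        unfold omT
        by_cases hl : lam h = true
        · rw [if_pos hl, if_pos hl, if_pos ht, map_pow]
        · rw [if_neg hl, if_neg hl, map_one]
      rw [e1, e2, mul_assoc]
      have h3 : B' v ^ M ≤ ((B' v) ^ (4 * M + 1) * B'' v ^ M) ^ (4 ^ e (h / 2)) := by
        calc B' v ^ M ≤ (B' v) ^ (4 * M + 1) * B'' v ^ M := by
              have h5 : B' v ^ M ≤ (B' v) ^ (4 * M + 1) := pow_le_pow_right₀ hb (by omega)
              have h6 : 1 ≤ B'' v ^ M := one_le_pow₀ hB''1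
              nlinarith [pow_pos hb0 (4 * M + 1)]
          _ ≤ _ := le_self_pow₀ (one_le_mul_of_one_le_of_one_le (one_le_pow₀ hb)
              (one_le_pow₀ hB''1)) (by have := hq (h / 2); omega)
      exact mul_le_mul_of_nonneg_right h3 (mul_nonneg (hY0 h) (v.nonneg _))
    · have ht' : T (h % 2) = false := by simpa using ht
      have ha0 := haR (h % 2) (Nat.mod_lt _ (by norm_num))
      have hah := haE h (by omega) ht'
      unfold cost
      rw [if_neg ht, ha0, hah]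
      have hMh := hM h
      have hMr := hM (2 * n + h % 2)
      refine ⟨by positivity, ?_⟩
      have e1 : v (omT T M e lam ω ψ h) = Mv v (ω h) ^ M := by
        unfold omT
        rw [hlam h hh ht']
        by_cases h1 : 1 < v (ω h)
        · simp only [h1, decide_true, if_true]
          rw [if_neg ht, map_pow]
          unfold Mv
          rw [max_eq_right h1.le]
        · simp only [h1, decide_false]
          unfold Mv
          rw [max_eq_left (not_lt.1 h1)]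
          simp
      have e2 : Y h = (max (v (lawV (mapW K W) n e (fun _ => false) ξ ψ h).1)
          (v (lawV (mapW K W) n e (fun _ => false) ξ ψ h).2)) ^ M *
            Mv v (ξ h) ^ (4 ^ e (h / 2)) := by
        rw [hY]
        simp only [loT]
        rw [if_neg ht]
      rw [e1, e2]
      exact cost_curve M _ (hq _) (B' v) (B'' v) _ _ _ _ hb hB''1 hMh hMr
        (le_max_of_le_left (v.nonneg _)) (one_le_Mv v _) (h33 h hh ht')
  have hz : ∀ h < 2 * n, 1 ≤ Mv v (zeT T ξ h) ∧ Mv v (zeT T ξ h) ≤ gn T a G h := by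
    intro h hh
    refine ⟨one_le_Mv v _, ?_⟩
    unfold gn
    by_cases ht : T (h % 2) = true
    · rw [if_pos ht, hG h hh ht]
    · have ht' : T (h % 2) = false := by simpa using ht
      rw [if_neg ht, haE h (by omega) ht']
      unfold zeT
      rw [if_neg ht]
      have := hM h
      nlinarith
  have ha0 : a (2 * n) = B' v * Mv v (ξ (2 * n)) := haR 0 (by norm_num)
  have ha1 : a (2 * n + 1) = B' v * Mv v (ξ (2 * n + 1)) := haR 1 (by norm_num)
  have hM0 := hM (2 * n)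
  have hM2 := hM (2 * n + 1)
  have hkb := keyT_le T n M δ k0 e a G L ((B' v) ^ (4 * M + 1) * B'' v ^ M) (B' v ^ 2)
    (Mv v (ξ (2 * n)) * Mv v (ξ (2 * n + 1))) (fun h => Y h * v (omT T M e lam ω ψ h))
    (fun h => Mv v (zeT T ξ h)) (by positivity) hcost hz (by rw [ha0, ha1]; positivity)
    (by rw [ha0, ha1]; exact le_of_eq (by ring))
  rw [Finset.prod_mul_distrib] at hkb
  have e2 : rpw r α = (∏ i : σ, (1 / r i) ^ (α i))⁻¹ := by
    unfold rpw
    rw [Finsupp.prod_fintype _ _ (fun i => pow_zero _), ← Finset.prod_inv_distrib]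
    apply Finset.prod_congr rfl
    intro i _
    rw [one_div, inv_pow, inv_inv]
  rw [e2] at hC
  have hO : 0 < ∏ h ∈ Finset.range (2 * n), v (omT T M e lam ω ψ h) :=
    Finset.prod_pos fun h hh => hom h (Finset.mem_range.1 hh)
  have hP : 0 < ∏ i : σ, (1 / r i) ^ (α i) := by
    apply Finset.prod_pos
    intro i _
    have := hr i
    positivity
  have hZ : 0 < ∏ j ∈ Finset.range n, (min (Mv v (zeT T ξ (2 * j)))
      (Mv v (zeT T ξ (2 * j + 1)))) ^ (k0 * 4 ^ e j) := by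
    apply Finset.prod_pos
    intro j _
    have : 1 ≤ min (Mv v (zeT T ξ (2 * j))) (Mv v (zeT T ξ (2 * j + 1))) :=
      le_min (one_le_Mv v _) (one_le_Mv v _)
    positivity
  have hYp : 0 ≤ ∏ h ∈ Finset.range (2 * n), Y h := Finset.prod_nonneg fun h _ => hY0 h
  have hsq : 1 ≤ Helper42.SG.sq n e := by
    unfold Helper42.SG.sq
    calc 1 ≤ 4 ^ e 0 := hq 0
      _ ≤ ∑ j ∈ Finset.range n, 4 ^ e j :=
        Finset.single_le_sum (f := fun j => 4 ^ e j) (fun i _ => Nat.zero_le _)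
          (Finset.mem_range.2 (by omega))
  have eY : (∏ h ∈ Finset.range (2 * n), (max (v (loT T W n e ξ ψ h).1)
      (v (loT T W n e ξ ψ h).2)) ^ M * Mv v (ξ h) ^ (4 ^ e (h / 2))) =
      ∏ h ∈ Finset.range (2 * n), Y h := by rw [hY]
  rw [eY]
  obtain ⟨OO, hOO⟩ : ∃ OO, OO = ∏ h ∈ Finset.range (2 * n), v (omT T M e lam ω ψ h) := ⟨_, rfl⟩
  obtain ⟨PP, hPP⟩ : ∃ PP, PP = ∏ i : σ, (1 / r i) ^ (α i) := ⟨_, rfl⟩
  obtain ⟨ZZ, hZZ⟩ : ∃ ZZ, ZZ = ∏ j ∈ Finset.range n, (min (Mv v (zeT T ξ (2 * j)))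
      (Mv v (zeT T ξ (2 * j + 1)))) ^ (k0 * 4 ^ e j) := ⟨_, rfl⟩
  obtain ⟨YY, hYY⟩ : ∃ YY, YY = ∏ h ∈ Finset.range (2 * n), Y h := ⟨_, rfl⟩
  rw [← hOO] at hC hO hkb
  rw [← hPP] at hC hP ⊢
  rw [← hZZ] at hZ hkb ⊢
  rw [← hYY] at hYp hkb ⊢
  have hBv : 0 < B v := plc_pos hB v
  have hcst0 : 0 < cst v (2 : ℝ) := lt_of_lt_of_le one_pos hcst
  have h3 : OO * v dl ≤ s * (B' v ^ 2 * cst v 2) ^ (2 * (M + 3) * Helper42.SG.sq n e) *
      B v ^ Helper42.SG.sq n e * keyT T n M δ k0 e a G L * PP := by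
    have := mul_le_mul_of_nonneg_right hC hP.le
    rwa [mul_assoc, inv_mul_cancel₀ hP.ne', mul_one] at this
  have h5 : (B' v ^ 2) ^ δ ≤ ((B' v) ^ (2 * δ)) ^ Helper42.SG.sq n e := by
    rw [← pow_mul]
    exact le_self_pow₀ (one_le_pow₀ hb) (by omega)
  refine le_of_mul_le_mul_left ?_ hO
  calc OO * v dl ≤ _ := h3
    _ ≤ s * (B' v ^ 2 * cst v 2) ^ (2 * (M + 3) * Helper42.SG.sq n e) *
      B v ^ Helper42.SG.sq n e * (((((B' v) ^ (4 * M + 1) * B'' v ^ M) ^ 2) ^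
        (Helper42.SG.sq n e) * (YY * OO) / ZZ *
        (B' v ^ 2 * (Mv v (ξ (2 * n)) * Mv v (ξ (2 * n + 1)))) ^ δ)) * PP := by
      gcongr
    _ = s * (B' v ^ 2 * cst v 2) ^ (2 * (M + 3) * Helper42.SG.sq n e) *
      B v ^ Helper42.SG.sq n e * (((((B' v) ^ (4 * M + 1) * B'' v ^ M) ^ 2) ^
        (Helper42.SG.sq n e) * (YY * OO) / ZZ *
        ((B' v ^ 2) ^ δ * (Mv v (ξ (2 * n)) * Mv v (ξ (2 * n + 1))) ^ δ))) * PP := by
      rw [mul_pow (B' v ^ 2) (Mv v (ξ (2 * n)) * Mv v (ξ (2 * n + 1)))]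
    _ ≤ s * (B' v ^ 2 * cst v 2) ^ (2 * (M + 3) * Helper42.SG.sq n e) *
      B v ^ Helper42.SG.sq n e * (((((B' v) ^ (4 * M + 1) * B'' v ^ M) ^ 2) ^
        (Helper42.SG.sq n e) * (YY * OO) / ZZ *
        (((B' v) ^ (2 * δ)) ^ Helper42.SG.sq n e *
          (Mv v (ξ (2 * n)) * Mv v (ξ (2 * n + 1))) ^ δ))) * PP := by
      gcongr
    _ = _ := by
      rw [mul_pow _ ((B' v) ^ (2 * δ)), mul_pow _ (((B' v) ^ (4 * M + 1) * B'' v ^ M) ^ 2),
        mul_pow (B v), ← pow_mul (B' v ^ 2 * cst v 2) (2 * (M + 3))]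
      ring

end Pool.Agent.Helper56.SG2
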